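import Mathlib

set_option autoImplicit false

namespace Pool.Agent.Results.MP_304c86_co.Full

/-- Not ultimately periodic. -/
def Aperiodic {A : Type} (x : ℕ → A) : Prop := ¬ ∃ p N, 0 < p ∧ ∀ i, N ≤ i → x (i + p) = x i

/-- `w` is closed: `|w| ≤ 1`, or some border `u` occurs exactly as a prefix and as a suffix. -/
def Closed {A : Type} (w : List A) : Prop := w.length ≤ 1 ∨ ∃ u : List A, u.length < w.length ∧
  {j | j ≤ w.length ∧ u <+: w.drop j} = {0, w.length - u.length}

/-- The closed factors of length `n` of `x`. -/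
def ClosedFactors {A : Type} (x : ℕ → A) (n : ℕ) : Set (List A) :=
  {w | (∃ i, w = (List.range n).map fun t => x (i + t)) ∧ Closed w}

def Syndetic (S : Set ℕ) : Prop := ∃ g, ∀ a, ∃ n ∈ S, a ≤ n ∧ n < a + g

def Thick (T : Set ℕ) : Prop := ∀ l, ∃ a, ∀ n, a ≤ n → n < a + l → n ∈ T

def PiecewiseSyndetic (S : Set ℕ) : Prop := ∃ S₁ T, Syndetic S₁ ∧ Thick T ∧ S = S₁ ∩ T

def B (i : ℕ) : Prop := ∃ k, i = 4 ^ k

lemma B2 {c d : ℕ} (hc : B c) (hd : B d) : c = d ∨ 4 * c ≤ d ∨ 4 * d ≤ c := by
  obtain ⟨a, rfl⟩ := hc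
  obtain ⟨b, rfl⟩ := hd
  rcases lt_trichotomy a b with h | rfl | h
  · exact .inr (.inl (pow_succ' 4 a ▸ Nat.pow_le_pow_right (by omega) h))
  · exact .inl rfl
  · exact .inr (.inr (pow_succ' 4 b ▸ Nat.pow_le_pow_right (by omega) h))

lemma B4 {c : ℕ} : B c → B (4 * c) ∧ 0 < c := fun ⟨a, h⟩ =>
  ⟨⟨a + 1, by rw [h, pow_succ']⟩, h ▸ by positivity⟩

lemma core {Q i m p : ℕ} (hQ : B Q) (h4 : 4 ≤ Q) (h1 : 2 * Q ≤ m + p) (h2 : m + p < 3 * Q)
    (hp : 0 < p) (per : ∀ t < m, B (i + t) ↔ B (i + p + t))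
    (occ : ∀ j, 0 < j → j < p → ¬ ∀ t < m, B (i + t) ↔ B (i + j + t)) :
    (∀ t < m + p, ¬ B (i + t)) ∨ ∀ t < m + p, B (i + t) ↔ 2 * t + 1 = m + p := by
  have nb : ∀ t < m, ¬ B (i + t) := fun t ht h => by
    have h' := (per t ht).1 h
    have := B2 h h'
    have := B2 hQ h'
    have := (B4 h).2
    have e : B (Q - p) := by
      have := per (Q - p - i) (by omega)
      rw [show i + (Q - p - i) = Q - p by omega, show i + p + (Q - p - i) = Q by omega] at this
      exact this.2 hQ
    have := B2 e hQ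
    have g := B4 e
    have f := per (4 * (Q - p) - i) (by omega)
    rw [show i + (4 * (Q - p) - i) = 4 * (Q - p) by omega] at f
    have := B2 hQ (f.1 g.1)
    omega
  have nb' : ∀ t, p ≤ t → t < m + p → ¬ B (i + t) := fun t a b h => nb (t - p) (by omega)
    ((per _ (by omega)).2 (by rwa [show i + p + (t - p) = i + t by omega]))
  by_cases p1 : p = 1
  · exact .inl fun t ht => if c : t < m then nb t c else nb' t (by omega) ht
  by_cases m0 : m = 0
  · exact absurd (fun t ht => by omega) (occ 1 (by omega) (by omega))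
  have a : B (i + m) := by
    by_contra c
    refine occ 1 (by omega) (by omega) fun t ht => iff_of_false (nb t ht) ?_
    rw [add_assoc]
    by_cases e : 1 + t = m
    · rwa [e]
    · exact nb _ (by omega)
  have b : B (i + (p - 1)) := by
    by_contra c
    refine occ (p - 1) (by omega) (by omega) fun t ht => iff_of_false (nb t ht) ?_
    rw [add_assoc]
    by_cases e : t = 0
    · rwa [e]
    · exact nb' _ (by omega) (by omega)
  have e : m = p - 1 := by
    have := B2 a b
    have := B2 a hQ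
    have := B2 b hQ
    have : ¬ p ≤ m := fun h => nb' m h (by omega) a
    by_contra
    exact nb' (Q - i) (by omega) (by omega) (by rwa [show i + (Q - i) = Q by omega])
  refine .inr fun t ht => ⟨fun h => ?_, fun h => by rwa [show t = m by omega]⟩
  by_contra
  exact if c : t < m then nb t c h else nb' t (by omega) ht h

open Classical in
theorem result : ∃ (x : ℕ → Bool) (S : Set ℕ), Aperiodic x ∧ PiecewiseSyndetic S ∧
    ∀ n ∈ S, (ClosedFactors x n).encard ≤ 2 := by
  refine ⟨fun i => decide (B i), {n | ∃ k, 2 * 4 ^ (k + 1) ≤ n ∧ n < 3 * 4 ^ (k + 1)}, ?_,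
    ⟨Set.univ, _, ⟨1, fun a => ⟨a, trivial, le_rfl, by omega⟩⟩, ?_, (Set.univ_inter _).symm⟩, ?_⟩
  · rintro ⟨p, N, hp, h⟩
    have l := Nat.lt_pow_self (n := N + p) (show 1 < 4 by omega)
    have e : B (4 ^ (N + p)) := ⟨_, rfl⟩
    have := B2 e (by simpa [e] using h (4 ^ (N + p)) (by omega))
    omega
  · refine fun l => ⟨2 * 4 ^ (l + 1), fun n a b => ⟨l, a, ?_⟩⟩
    have := Nat.lt_pow_self (n := l + 1) (show 1 < 4 by omega)
    omega
  rintro n ⟨k, h1, h2⟩
  have h4 : 4 ≤ 4 ^ (k + 1) := Nat.le_self_pow (by omega) 4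
  refine (Set.encard_le_encard (t := {(List.range n).map fun _ => false,
    (List.range n).map fun t => decide (2 * t + 1 = n)}) ?_).trans
    ((Set.encard_insert_le _ _).trans (by rw [Set.encard_singleton]; rfl))
  rintro w ⟨⟨i, rfl⟩, h | ⟨u, hu, h⟩⟩
  · simp at h; omega
  simp only [List.length_map, List.length_range] at hu h
  obtain ⟨p, rfl⟩ : ∃ p, n = u.length + p := ⟨n - u.length, by omega⟩
  have key : ∀ j ≤ p, u <+: ((List.range (u.length + p)).map fun t => decide (B (i + t))).drop j ↔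
      ∀ t, (h : t < u.length) → u[t] = decide (B (i + j + t)) := fun j hj => by
    rw [List.prefix_iff_getElem]
    simp [add_assoc]
    omega
  have k0 := (key 0 (by omega)).1 (h.ge (.inl rfl)).2
  have kp := (key p le_rfl).1 (h.ge (.inr (by simp))).2
  rcases core (i := i) ⟨_, rfl⟩ h4 h1 h2 (by omega) (fun t ht => by
    simpa using (k0 t ht).symm.trans (kp t ht)) (fun j a b c => by
    have := h.le ⟨show j ≤ _ by omega, (key j b.le).2 fun t ht => by simpa [← c t ht] using k0 t ht⟩
    simp at this; omega) with c | c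
  · exact .inl (List.map_congr_left fun t ht => by simpa using c t (by simpa using ht))
  · exact .inr (List.map_congr_left fun t ht => by simpa using c t (by simpa using ht))

end Pool.Agent.Results.MP_304c86_co.Full
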